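import Pool.Agent.N637.SLM.Stm
import Pool.Agent.N875.X15.Two

/-!
# SLM/N2b: the place 2, necessity, `c = 0 mod 8` (written by helper482)

Adapted from `Pool.Agent.N530.SLK.N2` (helper530, helper637).
-/

set_option autoImplicit false

namespace Pool.Agent.N482.SLM

open Pool.Agent.TH841.SH (LocC)
open Pool.Agent.N875.X15 (sq_cancel sq_trans close2)

/-- SLM-N2b -/
theorem t_N2b : Pool.Agent.N637.SLM.S_N2b := by
  intro m a c hcv hsq hc8 hm4 d1 d2 hd1 hd2 hloc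
  have hm0 : m ≠ 0 := hsq.ne_zero
  have hm' : (m : ℚ_[2]) ≠ 0 := by exact_mod_cast hm0
  obtain ⟨k, hk⟩ : ∃ k : ℤ, c = 8 * k := ⟨c / 8, by omega⟩
  have hk0 : k ≠ 0 := by
    rintro rfl
    exact hcv.h0 (by rw [hk]; norm_num)
  have hk' : (k : ℚ_[2]) ≠ 0 := by exact_mod_cast hk0
  have ha0 : a ≠ 0 := by
    have := hcv.ha
    omega
  have ha' : (a : ℚ_[2]) ≠ 0 := by exact_mod_cast ha0
  have hva : (a : ℚ_[2]).valuation = 0 := by
    rw [Padic.valuation_intCast, padicValInt.eq_zero_of_not_dvd (p := 2) (by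
      have := hcv.ha
      push_cast
      omega)]
    rfl
  obtain ⟨x, y, hy, hxy, h1, h2⟩ := hloc
  push_cast at hxy h1 h2
  rw [sub_zero] at hxy h1
  obtain ⟨v, hv⟩ : ∃ v, v = x - (a : ℚ_[2]) ^ 2 * m := ⟨_, rfl⟩
  have e1 : v + (a : ℚ_[2]) ^ 2 * m = x := by rw [hv]; ring
  have e2 : v + 64 * k ^ 2 * m = x - -((c : ℚ_[2]) ^ 2 - (a : ℚ_[2]) ^ 2) * m := by
    rw [hv, hk]
    push_cast
    ring
  rw [← hv] at h2 hxy
  rw [← e2] at hxy
  have hprod : x * v * (v + 64 * k ^ 2 * m) ≠ 0 := by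
    rw [← hxy]
    exact pow_ne_zero 2 hy
  have hw0 : v + 64 * k ^ 2 * m ≠ 0 := right_ne_zero_of_mul hprod
  have hx0 : x ≠ 0 := left_ne_zero_of_mul (left_ne_zero_of_mul hprod)
  have hv0 : v ≠ 0 := right_ne_zero_of_mul (left_ne_zero_of_mul hprod)
  have hs : IsSquare ((v + 64 * k ^ 2 * m) * v * x) := by
    refine ⟨y, ?_⟩
    rw [← sq, hxy]
    ring
  have h64 : (64 : ℚ_[2]) ≠ 0 := by norm_num
  have hcm : 64 * (k : ℚ_[2]) ^ 2 * m ≠ 0 := mul_ne_zero (mul_ne_zero h64 (pow_ne_zero 2 hk')) hm'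
  have hvk : 0 ≤ (k : ℚ_[2]).valuation := by
    rw [Padic.valuation_intCast]
    exact Int.natCast_nonneg _
  have v64 : (64 : ℚ_[2]).valuation = 6 := by
    have e : (64 : ℚ_[2]) = ((2 : ℕ) : ℚ_[2]) ^ 6 := by norm_num
    rw [e, Padic.valuation_pow, Padic.valuation_p]
    norm_num
  have vf : (64 * (k : ℚ_[2]) ^ 2 * m).valuation =
      6 + 2 * (k : ℚ_[2]).valuation + (m : ℚ_[2]).valuation := by
    rw [Padic.valuation_mul (mul_ne_zero h64 (pow_ne_zero 2 hk')) hm',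
      Padic.valuation_mul h64 (pow_ne_zero 2 hk'), Padic.valuation_pow, v64]
    push_cast
    ring
  have hαm : (a : ℚ_[2]) ^ 2 * m ≠ 0 := mul_ne_zero (pow_ne_zero 2 ha') hm'
  have va : ((a : ℚ_[2]) ^ 2 * m).valuation = (m : ℚ_[2]).valuation := by
    rw [Padic.valuation_mul (pow_ne_zero 2 ha') hm', Padic.valuation_pow, hva]
    ring
  rcases le_or_gt (v.valuation + 3) ((64 * (k : ℚ_[2]) ^ 2 * m).valuation) with c1 | c1
  · left
    have h3 := (close2 hw0 hv0 (by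
      rw [add_sub_cancel_left]
      exact hcm) (by
      rw [add_sub_cancel_left]
      exact c1)).1
    exact sq_cancel hx0 (sq_cancel (mul_ne_zero hw0 hv0) h3 hs) h1
  · right
    have h3 := (close2 hx0 hαm (by
      rw [← e1, add_sub_cancel_right]
      exact hv0) (by
      rw [← e1, add_sub_cancel_right, va]
      rw [vf] at c1
      omega)).1
    have h4 : IsSquare ((a : ℚ_[2]) ^ 2) := ⟨a, by ring⟩
    have h5 : IsSquare (x * (m : ℚ_[2])) := by
      refine sq_cancel (pow_ne_zero 2 ha') h4 ?_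
      have e : (a : ℚ_[2]) ^ 2 * (x * m) = x * (a ^ 2 * m) := by ring
      rw [e]
      exact h3
    rw [mul_comm] at h1
    exact sq_trans hx0 h1 h5

end Pool.Agent.N482.SLM
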